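import Pool.Agent.R598.FM.Cb

set_option autoImplicit false

namespace Pool.Agent.Results.MP_0aaa5a_lc.CompactMetrizableSeparable

open Pool.Agent.R598.FM

/-- The permutation model of the Cantor cubes is a model of ZFA, and every space that is compact
and metrizable in the model is separable in the model. -/
theorem result : IsZFA Cb.NC ∧ ∀ X ∈ Cb.NC, ∀ T ∈ Cb.NC, IsTop Cb.NC X T → IsComp Cb.NC X T →
    IsMetrizable Cb.NC X T → IsSeparable Cb.NC X T :=
  ⟨FMS.isZFA Cb.sys, fun _ hX _ hT h1 h2 h3 => Cb.main hX hT h1 h2 h3⟩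

end Pool.Agent.Results.MP_0aaa5a_lc.CompactMetrizableSeparable
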